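import Mathlib
import Pool.Agent.Q209.HJ
import Pool.Agent.Q209.HomeoCard

/-!
# The permutations of the integers and the homeomorphisms of the interval are not isomorphic under decomposition

Let `S` be the group of all permutations of the integers and `H` the group of all homeomorphisms of
the unit interval. We show that `S` and `H` are not isomorphic under decomposition, not even in the
weak sense in which each piece may use three separate bijections, one for each coordinate.

Idea: `S` contains all finite powers `Q^n` of the cyclic group `Q` of order three. Colour a pair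
`(x, y)` of elements of `Q^n` by the piece which contains `(x, y, x y)`. By the Hales-Jewett theorem
for the alphabet `Q × Q` there is a monochromatic combinatorial line. It gives injective maps
`α, β, γ` from `Q` to `H` with `α p * β q = γ (p q)`, and then `p ↦ α p * (α 1)⁻¹` is an
embedding of `Q` in `H`. But `H` has no element of order three.
-/

set_option autoImplicit false

namespace Pool.Agent.Results.MP_0a04b1_lc.NotIsomorphic

universe u

/-- Subsets `A`, `B` of `E ^ n` are product-isomorphic: a bijection `f` of `E`, applied in all
coordinates, maps `A` onto `B`. -/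
def ProductIsomorphic {E : Type u} {n : ℕ} (A B : Set (Fin n → E)) : Prop :=
  ∃ f : E ≃ E, (fun x : Fin n → E => fun i => f (x i)) '' A = B

/-- The weak variant: there is a bijection `f i` of `E` for each coordinate `i`. -/
def WeaklyProductIsomorphic {E : Type u} {n : ℕ} (A B : Set (Fin n → E)) : Prop :=
  ∃ f : Fin n → (E ≃ E), (fun x : Fin n → E => fun i => f i (x i)) '' A = B

/-- `A` and `B` are `R`-related under decomposition: for some `m ≥ 1` there are partitions of `A`
and of `B` into `m` pairwise disjoint pieces such that corresponding pieces are related by `R`. -/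
def UnderDecomposition {X : Type u} (R : Set X → Set X → Prop) (A B : Set X) : Prop :=
  ∃ m : ℕ, 1 ≤ m ∧ ∃ A' B' : Fin m → Set X,
    (⋃ i, A' i) = A ∧ (⋃ i, B' i) = B ∧
    (∀ i j, i ≠ j → Disjoint (A' i) (A' j)) ∧ (∀ i j, i ≠ j → Disjoint (B' i) (B' j)) ∧
    ∀ i, R (A' i) (B' i)

/-- The representation of the group `G`, carried to the set `E` by the bijection `e`: the set of
all triples `(x, y, z)` in `E ^ 3` with `x y = z`. -/
def representation {E : Type u} {G : Type} [Group G] (e : E ≃ G) : Set (Fin 3 → E) :=
  {x | e (x 0) * e (x 1) = e (x 2)}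

/-- The group of all permutations of the integers. -/
abbrev S : Type := Equiv.Perm ℤ

/-- The group of all homeomorphisms of the unit interval. -/
abbrev H : Type := unitInterval ≃ₜ unitInterval

theorem weak_of_strong {E : Type u} {n : ℕ} (A B : Set (Fin n → E))
    (h : UnderDecomposition ProductIsomorphic A B) :
    UnderDecomposition WeaklyProductIsomorphic A B := by
  obtain ⟨m, hm, A', B', h1, h2, h3, h4, h5⟩ := h
  refine ⟨m, hm, A', B', h1, h2, h3, h4, fun i => ?_⟩
  obtain ⟨f, hf⟩ := h5 i
  exact ⟨fun _ => f, hf⟩

theorem result :
    -- `S` and `H` can be carried to one set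
    Nonempty (S ≃ H) ∧
    -- they are not isomorphic under decomposition, not even in the weak sense
    ∀ (E : Type u) (e : E ≃ S) (e' : E ≃ H),
      ¬ UnderDecomposition ProductIsomorphic (representation e) (representation e') ∧
      ¬ UnderDecomposition WeaklyProductIsomorphic (representation e) (representation e') := by
  refine ⟨Q209.HJ.nonempty_equiv, fun E e e' => ?_⟩
  have key : ¬ UnderDecomposition WeaklyProductIsomorphic (representation e)
      (representation e') := by
    rintro ⟨m, -, A', B', hA, hB, -, -, hR⟩
    choose f hf using hR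
    have hcover : ∀ x : S × S, ∃ i : Fin m, x ∈ {x : S × S |
        ![e.symm x.1, e.symm x.2, e.symm (x.1 * x.2)] ∈ A' i} := by
      intro x
      have h1 : ![e.symm x.1, e.symm x.2, e.symm (x.1 * x.2)] ∈ representation e := by
        simp [representation]
      rw [← hA] at h1
      obtain ⟨i, hi⟩ := Set.mem_iUnion.1 h1
      exact ⟨i, hi⟩
    have hmap : ∀ i : Fin m, ∀ x ∈ {x : S × S |
        ![e.symm x.1, e.symm x.2, e.symm (x.1 * x.2)] ∈ A' i},
        e' (f i 0 (e.symm x.1)) * e' (f i 1 (e.symm x.2)) = e' (f i 2 (e.symm (x.1 * x.2))) := by
      intro i x hx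
      have h1 : (fun j => f i j (![e.symm x.1, e.symm x.2, e.symm (x.1 * x.2)] j)) ∈ B' i := by
        rw [← hf i]
        exact ⟨_, hx, rfl⟩
      have h2 : (fun j => f i j (![e.symm x.1, e.symm x.2, e.symm (x.1 * x.2)] j)) ∈
          representation e' := by
        rw [← hB]
        exact Set.mem_iUnion.2 ⟨i, h1⟩
      simpa [representation] using h2
    obtain ⟨φ, hφ⟩ := Q209.HJ.exists_hom (G := S) (K := H) (κ := Fin m)
      (fun ι _ => Q209.HJ.exists_emb ι) _ hcover
      (fun i g => e' (f i 0 (e.symm g))) (fun i g => e' (f i 1 (e.symm g)))
      (fun i g => e' (f i 2 (e.symm g)))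
      (fun i g g' hgg => e.symm.injective ((f i 0).injective (e'.injective hgg))) hmap
    exact Q209.HJ.not_hom φ hφ
  exact ⟨fun h => key (weak_of_strong _ _ h), key⟩

end Pool.Agent.Results.MP_0a04b1_lc.NotIsomorphic
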